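import Mathlib

namespace Pool.Agent.Results.MP_a13a55_pr.Rigid

open MeasureTheory

/-- `D i u v = true` means that the edge `uv` has colour `i` and points from `u` to `v`. -/
structure IsSchreier {V : Type} (G : SimpleGraph V) (d : ℕ) (D : Fin d → V → V → Bool) : Prop where
  adj : ∀ i u v, D i u v = true → G.Adj u v
  cover : ∀ u v, G.Adj u v → ∃ i, D i u v = true ∨ D i v u = true
  colour : ∀ i j u v, D i u v = true → D j u v = true → i = j
  dir : ∀ i j u v, D i u v = true → D j v u = true → False
  out : ∀ i v, ∃! w, D i v w = true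
  inn : ∀ i v, ∃! w, D i w v = true

abbrev V := ZMod 3 × ℤ

def mul (x y : V) : V := (x.1 + (if x.2 % 2 = 0 then y.1 else -y.1), x.2 + y.2)

def inv (x : V) : V := (if x.2 % 2 = 0 then -x.1 else x.1, -x.2)

lemma mul_assoc' (x y z : V) : mul (mul x y) z = mul x (mul y z) := by
  unfold mul
  refine Prod.ext ?_ (add_assoc _ _ _)
  by_cases h1 : x.2 % 2 = 0 <;> by_cases h2 : y.2 % 2 = 0
  · have h3 : (x.2 + y.2) % 2 = 0 := by omega
    simp only [h1, h2, h3, if_true]
    ring
  · have h3 : ¬ (x.2 + y.2) % 2 = 0 := by omega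
    simp only [h1, h2, h3, if_true, if_false]
    ring
  · have h3 : ¬ (x.2 + y.2) % 2 = 0 := by omega
    simp only [h1, h2, h3, if_true, if_false]
    ring
  · have h3 : (x.2 + y.2) % 2 = 0 := by omega
    simp only [h1, h2, h3, if_true, if_false]
    ring

lemma one_mul' (x : V) : mul (0, 0) x = x := by simp [mul]

lemma mul_one' (x : V) : mul x (0, 0) = x := by simp [mul]

lemma inv_mul' (x : V) : mul (inv x) x = (0, 0) := by
  unfold mul inv
  refine Prod.ext ?_ (by simp)
  by_cases h1 : x.2 % 2 = 0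
  · have h3 : (-x.2) % 2 = 0 := by omega
    simp only [h1, h3, if_true]
    ring
  · have h3 : ¬ (-x.2) % 2 = 0 := by omega
    simp only [h1, h3, if_false]
    ring

lemma mul_inv' (x : V) : mul x (inv x) = (0, 0) := by
  unfold mul inv
  refine Prod.ext ?_ (by simp)
  by_cases h1 : x.2 % 2 = 0
  · simp only [h1, if_true]
    ring
  · simp only [h1, if_false]
    ring

lemma mul_inj (x : V) {y z : V} (h : mul x y = mul x z) : y = z := by
  have := congrArg (mul (inv x)) h
  rwa [← mul_assoc', ← mul_assoc', inv_mul', one_mul', one_mul'] at this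

def gen : Fin 10 → V :=
  ![(0, 1), (2, 1), (0, 2), (1, 2), (2, 3), (0, -1), (2, -1), (0, -2), (2, -2), (2, -3)]

lemma gen_inv : ∀ t : Fin 10, mul (gen t) (gen (t + 5)) = (0, 0) := by decide

lemma gen_ne : ∀ t : Fin 10, gen t ≠ (0, 0) := by decide

lemma gen_inj : Function.Injective gen := by decide

lemma back (u : V) (t : Fin 10) : mul (mul u (gen t)) (gen (t + 5)) = u := by
  rw [mul_assoc', gen_inv, mul_one']

def G : SimpleGraph V where
  Adj u v := ∃ t, v = mul u (gen t)
  symm := ⟨by
    rintro u v ⟨t, rfl⟩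
    exact ⟨t + 5, (back u t).symm⟩⟩
  loopless := ⟨by
    rintro u ⟨t, h⟩
    nth_rewrite 1 [← mul_one' u] at h
    exact gen_ne t (mul_inj u h).symm⟩

lemma adj_mul (g u v : V) : G.Adj (mul g u) (mul g v) ↔ G.Adj u v := by
  constructor
  · rintro ⟨t, h⟩
    rw [mul_assoc'] at h
    exact ⟨t, mul_inj g h⟩
  · rintro ⟨t, rfl⟩
    exact ⟨t, (mul_assoc' _ _ _).symm⟩

def link (s t : Fin 10) : Bool := decide (∃ r, gen t = mul (gen s) (gen r))

def linkT : Fin 10 → Fin 10 → Bool := fun s t => Nat.testBit 555294200072928732154862751804 (10 * s.val + t.val)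

lemma link_eq : ∀ s t, link s t = linkT s t := by decide +kernel

def ok (l : List (Fin 10 × Fin 10)) (s a : Fin 10) : Bool :=
  l.all fun p => (linkT s p.1 == linkT a p.2) && !(a == p.2)

def srch : List (Fin 10) → List (Fin 10 × Fin 10) → Bool
  | [], l => l.all fun p => p.1 == p.2
  | s :: rem, l => (List.finRange 10).all fun a => !(ok l s a) || srch rem ((s, a) :: l)

lemma rigid : srch (List.finRange 10) [] = true := by decide +kernel

lemma sound (σ : Fin 10 → Fin 10) (hok : ∀ (l : List (Fin 10)) (s : Fin 10), s ∉ l →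
      ok (l.map fun t => (t, σ t)) s (σ s) = true) (rem : List (Fin 10)) :
    ∀ L : List (Fin 10), (rem ++ L).Nodup → srch rem (L.map fun t => (t, σ t)) = true →
      ∀ t ∈ rem ++ L, σ t = t := by
  induction rem with
  | nil =>
    intro L _ h t ht
    unfold srch at h
    rw [List.all_eq_true] at h
    have := h (t, σ t) (List.mem_map.mpr ⟨t, by simpa using ht, rfl⟩)
    exact (beq_iff_eq.mp this).symm
  | cons s rem ih =>
    intro L hn h t ht
    unfold srch at h
    rw [List.all_eq_true] at h
    have h1 := h (σ s) (List.mem_finRange _)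
    have h2 : s ∉ L := fun hs => (List.nodup_cons.mp hn).1 (List.mem_append_right _ hs)
    rw [hok L s h2] at h1
    simp only [Bool.not_true, Bool.false_or] at h1
    have hp : (rem ++ s :: L).Perm (s :: rem ++ L) := List.perm_middle
    exact ih (s :: L) (hp.nodup_iff.mpr hn) h1 t (hp.mem_iff.mpr ht)

lemma aut_gen (φ : G ≃g G) (v : V) (i : Fin 5) :
    φ (mul v (gen (Fin.castLE (by norm_num) i))) = mul (φ v) (gen (Fin.castLE (by norm_num) i)) := by
  have h : ∀ t, ∃ r, φ (mul v (gen t)) = mul (φ v) (gen r) := fun t =>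
    φ.map_adj_iff.mpr (show G.Adj v (mul v (gen t)) from ⟨t, rfl⟩)
  choose σ hσ using h
  have hinj : Function.Injective σ := by
    intro s t hst
    have h1 : φ (mul v (gen s)) = φ (mul v (gen t)) := by rw [hσ, hσ, hst]
    exact gen_inj (mul_inj v (φ.injective h1))
  have hl : ∀ s t, linkT s t = linkT (σ s) (σ t) := by
    intro s t
    rw [← link_eq, ← link_eq]
    unfold link
    refine decide_eq_decide.mpr ?_
    have h1 := adj_mul v (gen s) (gen t)
    have h2 := adj_mul (φ v) (gen (σ s)) (gen (σ t))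
    rw [← hσ, ← hσ, φ.map_adj_iff] at h2
    exact h1.symm.trans h2
  have hok : ∀ (l : List (Fin 10)) (s : Fin 10), s ∉ l →
      ok (l.map fun t => (t, σ t)) s (σ s) = true := by
    intro l s hs
    unfold ok
    rw [List.all_eq_true]
    intro p hp
    obtain ⟨t, ht, rfl⟩ := List.mem_map.mp hp
    have hne : σ s ≠ σ t := fun h => hs (hinj h ▸ ht)
    simp [← hl, hne]
  rw [hσ, sound σ hok (List.finRange 10) [] (by decide) rigid _ (by simp)]

def D (i : Fin 5) (u v : V) : Bool := decide (v = mul u (gen (Fin.castLE (by norm_num) i)))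

lemma schreier : IsSchreier G 5 D := by
  refine ⟨?_, ?_, ?_, ?_, ?_, ?_⟩
  · intro i u v h
    exact ⟨_, of_decide_eq_true h⟩
  · rintro u v ⟨t, rfl⟩
    have h : ∀ t : Fin 10, ∃ i : Fin 5, t = Fin.castLE (by norm_num) i ∨
        t + 5 = Fin.castLE (by norm_num) i := by decide
    obtain ⟨i, hi | hi⟩ := h t
    · exact ⟨i, Or.inl (decide_eq_true (by rw [hi]))⟩
    · exact ⟨i, Or.inr (decide_eq_true (by rw [← hi, back]))⟩
  · intro i j u v h1 h2
    have h3 := (of_decide_eq_true h1).symm.trans (of_decide_eq_true h2)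
    exact Fin.castLE_injective _ (gen_inj (mul_inj u h3))
  · intro i j u v h1 h2
    have h3 := of_decide_eq_true h2
    rw [of_decide_eq_true h1, mul_assoc'] at h3
    nth_rewrite 1 [← mul_one' u] at h3
    have h4 := mul_inj u h3
    revert i j
    have : ∀ i j : Fin 5, (0, 0) ≠ mul (gen (Fin.castLE (by norm_num) i))
        (gen (Fin.castLE (by norm_num) j)) := by decide
    intro i j _ _ _ h4
    exact this i j h4
  · intro i v
    exact ⟨_, decide_eq_true rfl, fun w hw => of_decide_eq_true hw⟩
  · intro i v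
    refine ⟨mul v (gen (Fin.castLE (by norm_num) i + 5)), decide_eq_true ?_, fun w hw => ?_⟩
    · have h : ∀ t : Fin 10, t = t + 5 + 5 := by decide
      nth_rewrite 2 [h (Fin.castLE _ i)]
      rw [back]
    · rw [of_decide_eq_true hw, back]

lemma conn : G.Connected := by
  have up : ∀ (a : ZMod 3) (k : ℤ), G.Adj (a, k) (a, k + 1) := fun a k => ⟨0, by simp [mul, gen]⟩
  have col : ∀ (a : ZMod 3) (k : ℤ), G.Reachable (a, 0) (a, k) := by
    intro a k
    induction k using Int.induction_on with
    | zero => rfl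
    | succ n ih => exact ih.trans (up a n).reachable
    | pred n ih =>
      have := up a (-n - 1)
      rw [show (-(n:ℤ) - 1 + 1) = -n by ring] at this
      exact ih.trans this.reachable.symm
  have h2 : G.Reachable (0, 0) (2, 0) :=
    (show G.Adj (0, 0) (2, 1) from ⟨1, by decide⟩).reachable.trans (col 2 1).symm
  have h1 : G.Reachable (0, 0) (1, 0) :=
    h2.trans ((show G.Adj (2, 0) (1, 1) from ⟨1, by decide⟩).reachable.trans (col 1 1).symm)
  have all : ∀ v : V, G.Reachable (0, 0) v := by
    rintro ⟨a, k⟩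
    have h : ∀ a : ZMod 3, a = 0 ∨ a = 1 ∨ a = 2 := by decide
    rcases h a with rfl | rfl | rfl
    · exact col 0 k
    · exact h1.trans (col 1 k)
    · exact h2.trans (col 2 k)
  exact ⟨fun u v => (all u).symm.trans (all v)⟩

def tr (g : V) : G ≃g G where
  toFun := mul g
  invFun := mul (inv g)
  left_inv x := by rw [← mul_assoc', inv_mul', one_mul']
  right_inv x := by rw [← mul_assoc', mul_inv', one_mul']
  map_rel_iff' := adj_mul g _ _

theorem result : ∃ (V : Type) (_ : Countable V) (G : SimpleGraph V) (d : ℕ), 1 ≤ d ∧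
    G.Connected ∧ (∀ v, (G.neighborSet v).ncard = 2 * d) ∧ (∀ u v, ∃ φ : G ≃g G, φ u = v) ∧
    ∃ F : (V → unitInterval) → Fin d → V → V → Bool, Measurable F ∧
      (∀ ω, IsSchreier G d (F ω)) ∧
      (∀ (φ : G ≃g G) ω i u v, F (ω ∘ φ.symm) i (φ u) (φ v) = F ω i u v) ∧
      0 < Measure.infinitePi (fun _ : V => (volume : Measure unitInterval))
        {ω | ∃ i, ∃ p : ℕ → V, Function.Injective p ∧ ∀ n, F ω i (p n) (p (n + 1)) = true} := by
  refine ⟨V, inferInstance, G, 5, by norm_num, conn, ?_, ?_, fun _ => D, measurable_const,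
    fun _ => schreier, ?_, ?_⟩
  · intro v
    have : G.neighborSet v = (fun t => mul v (gen t)) '' Set.univ := by
      ext w
      simp only [SimpleGraph.mem_neighborSet, Set.image_univ, Set.mem_range]
      exact ⟨fun ⟨t, h⟩ => ⟨t, h.symm⟩, fun ⟨t, h⟩ => ⟨t, h.symm⟩⟩
    rw [this, Set.ncard_image_of_injective _ fun s t h => gen_inj (mul_inj v h), Set.ncard_univ]
    simp
  · intro u v
    refine ⟨tr (mul v (inv u)), ?_⟩
    show mul (mul v (inv u)) u = v
    rw [mul_assoc', inv_mul', mul_one']
  · intro φ _ i u v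
    unfold D
    refine decide_eq_decide.mpr ?_
    rw [← aut_gen]
    exact φ.injective.eq_iff
  · have : {ω : V → unitInterval | ∃ i, ∃ p : ℕ → V, Function.Injective p ∧
        ∀ n, D i (p n) (p (n + 1)) = true} = Set.univ := by
      refine Set.eq_univ_of_forall fun _ => ⟨0, fun n => (0, n), ?_, fun n => decide_eq_true ?_⟩
      · intro a b h
        simpa using h
      · simp [mul, gen]
    rw [this, measure_univ]
    exact one_pos

end Pool.Agent.Results.MP_a13a55_pr.Rigid
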